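import Pool.Agent.U124.HL.Pos

/-!
# The standard conjecture of Hodge type in `l`-adic cohomology for products of abelian varieties with
Weil classes, for the prime numbers which do not split in the imaginary quadratic field
-/

set_option autoImplicit false

namespace Pool.Agent.U124.HL

open NumberField Module
open Pool.Agent.W495.TA Pool.Agent.TH117.PO Pool.Agent.TH117.BL Pool.Agent.N202.QR
  Pool.Agent.U124.HQ

variable {p : ℕ} [Fact p.Prime] {ν : PadicAlgCl p ≃+* ℂ} {K : Type} [Field K] [NumberField K]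
  [IsCMField K]

/-- All relations between the Frobenius eigenvalues are quadratic. -/
theorem quad_of_kinds (hK : finrank ℚ K = 2) (κ : K →+* ℂ) (Z : RedAV p ν)
    (hZ : ∀ i : Z.X.I,
      (∃ ι : K →+* (Z.X.factor i).E, Stm.IndepOver (F := fun i => (Z.X.factor i).E) κ i ι ∧
        Stm.KindOver ν κ ι Z.a (Z.π i)) ∨
      (Stm.IndepConj (fun i => (Z.X.factor i).E) i ∧ Stm.KindFree (p ^ Z.a) (Z.π i))) :
    HasQuadRelE κ Z := by
  refine quad_of_good hK fun i => ?_
  rcases hZ i with ⟨ι, hind, hkind⟩ | ⟨hind, hkind⟩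
  · refine Or.inl ⟨ι, ?_, hind⟩
    rcases hkind with h | ⟨h, hπ⟩ | ⟨⟨g, hg, hdeg⟩, hπ⟩ | ⟨r, n, d, hr, hr2, hdeg, hd, hsl, hsum⟩ | h
    · intro e _ _ φ ψ hφ hψ
      have h1 : φ = ψ := by
        ext x
        obtain ⟨y, rfl⟩ := h x
        exact (RingHom.congr_fun hφ y).trans (RingHom.congr_fun hψ y).symm
      rw [h1]
    · exact relationsOver_of_simple hK κ i ι (isSimple_of_two κ ι h) (Or.inr hπ)
    · exact relationsOver_of_simple hK κ i ι (isSimple_of_prime κ ι hg (by rw [hK, hdeg]))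
        (Or.inr hπ)
    · exact relationsOver_of_neat (neat_of_primePower hK κ ι hr hr2 hdeg hd hsl hsum) κ ι
    · exact relationsOver_of_stm h
  · refine Or.inr ⟨?_, hind⟩
    rcases hkind with ⟨hflip, hss⟩ | h
    · refine neat_of_flip hflip fun m hm h => hss m hm ?_
      rw [h]
      push_cast
      rfl
    · exact neat_of_stm h

/-- The theorem for varieties with quadratic relations. -/
theorem holds_of_quad {Ω : Nat.Primes → Type} [∀ l, Field (Ω l)] [∀ l, CharZero (Ω l)]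
    [∀ l : Nat.Primes, Algebra ℚ_[(l : ℕ)] (Ω l)] [∀ l, IsAlgClosed (Ω l)]
    [∀ l : Nat.Primes, Algebra.IsAlgebraic ℚ_[(l : ℕ)] (Ω l)]
    {C : (Y : RedAV p ν) → (κ : Type) → FCl Ω Y κ → Prop} (hC : IsSystemOfCycles Ω C)
    (hK : finrank ℚ K = 2) (κ : K →+* ℂ) {Z : RedAV p ν} (hZ : HasQuadRelE κ Z) :
    HoldsForNonsplit C K Z :=
  fun l hlp hl _ hYZ _ hα _ _ hrm _ hz hz0 hprim =>
    positive_nonsplit hC.toIsCompatible l (hC.rosati l hlp) (hC.tate l hlp) (hC.rational l hlp) hK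
      hl κ hZ hYZ hα hrm hz hz0 hprim

/-- The theorem for simple abelian varieties of odd prime dimension. -/
theorem holds_of_prime {Ω : Nat.Primes → Type} [∀ l, Field (Ω l)] [∀ l, CharZero (Ω l)]
    [∀ l : Nat.Primes, Algebra ℚ_[(l : ℕ)] (Ω l)] [∀ l, IsAlgClosed (Ω l)]
    [∀ l : Nat.Primes, Algebra.IsAlgebraic ℚ_[(l : ℕ)] (Ω l)]
    {C : (Y : RedAV p ν) → (κ : Type) → FCl Ω Y κ → Prop} (hC : IsSystemOfCycles Ω C)
    {g : ℕ} (hg : g.Prime) (hg2 : g ≠ 2) {Z : RedAV p ν} (hZ : HasOneFactor Z g) :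
    ∃ (K : Type) (_ : Field K) (_ : NumberField K) (_ : IsCMField K),
      finrank ℚ K = 2 ∧ HoldsForNonsplit C K Z := by
  obtain ⟨i0, hone, hdeg⟩ := hZ
  rcases prime_relations i0 hone hg hg2 hdeg with h | h
  · obtain ⟨κ⟩ : Nonempty ((kp p).E →+* ℂ) := inferInstance
    exact ⟨(kp p).E, inferInstance, inferInstance, inferInstance, finrank_kp p,
      holds_of_quad hC (finrank_kp p) κ (quad_of_elementary κ h)⟩
  · obtain ⟨K, _, _, _, hK, κ, hκ⟩ := quad_of_rank_one h
    exact ⟨K, inferInstance, inferInstance, inferInstance, hK, holds_of_quad hC hK κ hκ⟩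

end Pool.Agent.U124.HL
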