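import Pool.Agent.N202.QR.Defs

/-!
# Homological and numerical equivalence: definition
-/

set_option autoImplicit false

namespace Pool.Agent.U124.HL

open NumberField Module
open Pool.Agent.W495.TA Pool.Agent.TH117.PO Pool.Agent.TH117.BL Pool.Agent.N202.QR

variable {p : ℕ} [Fact p.Prime] {ν : PadicAlgCl p ≃+* ℂ}

/-- Homological and numerical equivalence coincide on `Y`: a class of codimension `r` in the system
`C` which is numerically equivalent to zero is zero. -/
def HomEqNum (Ω : Type) [Field Ω] [CharZero Ω]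
    (C : (Y : RedAV p ν) → (κ : Type) → ((TM Ω Y) [⋀^κ]→ₗ[Ω] Ω) → Prop) (Y : RedAV p ν) : Prop :=
  ∀ (r : ℕ) (z : (TM Ω Y) [⋀^Fin r × Fin 2]→ₗ[Ω] Ω), C Y (Fin r × Fin 2) z →
    IsNumTrivial Ω C z → z = 0

end Pool.Agent.U124.HL
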