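import Pool.Agent.U124.HL.Defs
import Pool.Agent.N202.QR.Main

/-!
# Forms on the Tate module that are rational over the field of `l`-adic numbers, and automorphisms
-/

set_option autoImplicit false
set_option linter.unusedSectionVars false

namespace Pool.Agent.U124.HL

open NumberField Pool.Agent.H204R3.CM Pool.Agent.W547.KB Pool.Agent.W547.LD Pool.Agent.W547.HR
  Pool.Agent.W495.TA Module Pool.Agent.TH117.PO Pool.Agent.N202.QR
open scoped TensorProduct

noncomputable section

variable {p : ℕ} [Fact p.Prime] {ν : PadicAlgCl p ≃+* ℂ} {k : Type} [Field k] {Ω : Type} [Field Ω]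
  [CharZero Ω] [Algebra k Ω]

/-- The automorphism `σ` as a map over the field of rational numbers. -/
def ratMap (σ : Ω ≃ₐ[k] Ω) : Ω →ₗ[ℚ] Ω := (σ : Ω →+* Ω).toAddMonoidHom.toRatLinearMap

/-- The action of `σ` on the coefficients of the Tate module. -/
def act (σ : Ω ≃ₐ[k] Ω) (Y : RedAV p ν) : TM Ω Y →ₗ[ℚ] TM Ω Y :=
  TensorProduct.map (ratMap σ) LinearMap.id

theorem act_tmul (σ : Ω ≃ₐ[k] Ω) (Y : RedAV p ν) (c : Ω) (h : Y.X.H1) :
    act σ Y (c ⊗ₜ[ℚ] h) = σ c ⊗ₜ[ℚ] h := rfl

theorem act_smul (σ : Ω ≃ₐ[k] Ω) (Y : RedAV p ν) (c : Ω) (x : TM Ω Y) :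
    act σ Y (c • x) = σ c • act σ Y x := by
  induction x using TensorProduct.induction_on with
  | zero => simp
  | tmul d h =>
    rw [TensorProduct.smul_tmul', act_tmul, act_tmul, TensorProduct.smul_tmul', smul_eq_mul,
      smul_eq_mul, map_mul]
  | add x y hx hy => rw [smul_add, map_add, hx, hy, map_add, smul_add]

/-- The conjugate form. -/
def conjForm (σ : Ω ≃ₐ[k] Ω) {Y : RedAV p ν} {κ : Type}
    (z : (TM Ω Y) [⋀^κ]→ₗ[Ω] Ω) : MultilinearMap Ω (fun _ : κ => TM Ω Y) Ω where
  toFun x := σ.symm (z fun i => act σ Y (x i))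
  map_update_add' := by
    intro _ x i y y'
    have h : ∀ u : TM Ω Y, (fun i' => act σ Y (Function.update x i u i')) =
        Function.update (fun i' => act σ Y (x i')) i (act σ Y u) := by
      intro u
      funext i'
      by_cases hi : i' = i
      · subst hi
        simp
      · simp [Function.update_of_ne hi]
    rw [h, h, h, map_add, z.map_update_add, map_add]
  map_update_smul' := by
    intro _ x i c y
    have h : ∀ u : TM Ω Y, (fun i' => act σ Y (Function.update x i u i')) =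
        Function.update (fun i' => act σ Y (x i')) i (act σ Y u) := by
      intro u
      funext i'
      by_cases hi : i' = i
      · subst hi
        simp
      · simp [Function.update_of_ne hi]
    rw [h, h, act_smul, z.map_update_smul, smul_eq_mul, map_mul, smul_eq_mul]
    congr 1
    exact σ.symm_apply_apply c

/-- A form which is rational over `k` commutes with the automorphisms over `k`. -/
theorem map_act (σ : Ω ≃ₐ[k] Ω) {Y : RedAV p ν} {κ : Type} [Finite κ]
    (z : (TM Ω Y) [⋀^κ]→ₗ[Ω] Ω)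
    (hz : ∀ v : κ → Y.X.H1, res z v ∈ Set.range (algebraMap k Ω)) (x : κ → TM Ω Y) :
    z (fun i => act σ Y (x i)) = σ (z x) := by
  have h : conjForm σ z = z.toMultilinearMap := by
    refine Basis.ext_multilinear (fun _ => (Module.finBasis ℚ Y.X.H1).baseChange Ω) fun v => ?_
    change σ.symm (z fun i => act σ Y ((Module.finBasis ℚ Y.X.H1).baseChange Ω (v i))) = z _
    have h1 : (fun i => act σ Y ((Module.finBasis ℚ Y.X.H1).baseChange Ω (v i))) =
        fun i => (1 : Ω) ⊗ₜ[ℚ] (Module.finBasis ℚ Y.X.H1 (v i)) := by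
      funext i
      rw [Basis.baseChange_apply, act_tmul, map_one]
    have h2 : (fun i => (Module.finBasis ℚ Y.X.H1).baseChange Ω (v i)) =
        fun i => (1 : Ω) ⊗ₜ[ℚ] (Module.finBasis ℚ Y.X.H1 (v i)) := by
      funext i
      rw [Basis.baseChange_apply]
    rw [h1, h2]
    obtain ⟨a, ha⟩ := hz fun i => Module.finBasis ℚ Y.X.H1 (v i)
    change σ.symm (res z fun i => Module.finBasis ℚ Y.X.H1 (v i)) = _
    rw [← ha]
    exact (σ.symm.commutes a).trans ha
  have h3 : σ.symm (z fun i => act σ Y (x i)) = z x := DFunLike.congr_fun h x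
  rw [← h3]
  exact (σ.apply_symm_apply _).symm

variable {L : Type} [Field L] [NumberField L] [IsCMField L] [IsGalois ℚ L]

/-- The coordinates of the conjugate vector. -/
theorem co_act (jO : L →+* Ω) {Y : RedAV p ν} (σ : Ω ≃ₐ[k] Ω) (g : L ≃ₐ[ℚ] L)
    (hσ : ∀ x, σ (jO x) = jO (g x)) (w : Wt Y.X L) (u : TM Ω Y) :
    co jO (sw g w) (act σ Y u) = σ (co jO w u) := by
  induction u using TensorProduct.induction_on with
  | zero => simp
  | tmul c h =>
    rw [act_tmul]
    unfold co
    rw [LinearMap.liftBaseChange_tmul, LinearMap.liftBaseChange_tmul, smul_eq_mul, smul_eq_mul,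
      map_mul]
    congr 1
    change jO (g (w.2 (h w.1))) = σ (jO (w.2 (h w.1)))
    rw [hσ]
  | add x y hx hy => rw [map_add, map_add, hx, hy, map_add, map_add]

theorem sw_symm {X : CMAV} (g : L ≃ₐ[ℚ] L) (w : Wt X L) : sw g (sw g⁻¹ w) = w := by
  refine Sigma.ext rfl (heq_of_eq ?_)
  ext x
  exact g.apply_symm_apply (w.2 x)

theorem sw_inj {X : CMAV} (g : L ≃ₐ[ℚ] L) : Function.Injective (sw g : Wt X L → Wt X L) := by
  rintro ⟨i, φ⟩ ⟨i', φ'⟩ h
  obtain ⟨h1, h2⟩ := Sigma.mk.inj_iff.1 h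
  subst h1
  refine Sigma.ext rfl (heq_of_eq ?_)
  ext x
  exact g.injective (DFunLike.congr_fun (eq_of_heq h2) x)

/-- The coefficients of a class which is rational over `k`, and the automorphisms over `k`. -/
theorem coef_act (jO : L →+* Ω) {Y : RedAV p ν} (σ : Ω ≃ₐ[k] Ω) (g : L ≃ₐ[ℚ] L)
    (hσ : ∀ x, σ (jO x) = jO (g x))
    (e : Basis (Wt Y.X L) Ω (TM Ω Y)) (h1 : ∀ w, co jO w (e w) = 1)
    (h0 : ∀ w w', w ≠ w' → co jO w (e w') = 0) {κ : Type} [Finite κ]
    {z : (TM Ω Y) [⋀^κ]→ₗ[Ω] Ω}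
    (hz : ∀ v : κ → Y.X.H1, res z v ∈ Set.range (algebraMap k Ω)) (s : κ → Wt Y.X L) :
    (z fun i => e (sw g (s i))) = σ (z fun i => e (s i)) := by
  classical
  have hcoord : ∀ w, e.coord w = co jO w := by
    intro w
    refine e.ext fun w' => ?_
    rw [Basis.coord_apply, e.repr_self]
    by_cases hw : w' = w
    · subst hw
      rw [Finsupp.single_eq_same, h1]
    · rw [Finsupp.single_eq_of_ne (Ne.symm hw), h0 w w' (Ne.symm hw)]
  have hact : ∀ w, act σ Y (e w) = e (sw g w) := by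
    intro w
    refine e.ext_elem fun w' => ?_
    have h2 : e.repr (act σ Y (e w)) w' = co jO w' (act σ Y (e w)) := by
      rw [← hcoord]
      rfl
    have h3 : e.repr (e (sw g w)) w' = co jO w' (e (sw g w)) := by
      rw [← hcoord]
      rfl
    have h4 : w' = sw g (sw g⁻¹ w') := (sw_symm g w').symm
    rw [h2, h3, h4, co_act jO σ g hσ]
    by_cases hw : sw g⁻¹ w' = w
    · rw [hw, h1, h1, map_one]
    · rw [h0 _ w hw, h0 _ _ fun h => hw (sw_inj g h), map_zero]
  have h4 : (fun i => e (sw g (s i))) = fun i => act σ Y (e (s i)) := by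
    funext i
    rw [hact]
  rw [h4, map_act σ z hz]

/-- If the field `K` has no embedding in `k`, some automorphism over `k` is not the identity on the
image of `K`. -/
theorem exists_aut [IsAlgClosed Ω] [Algebra.IsAlgebraic k Ω] [CharZero k] {K : Type} [Field K]
    (hK : IsEmpty (K →+* k)) (κL : K →+* L) (jO : L →+* Ω) :
    ∃ (σ : Ω ≃ₐ[k] Ω) (g : L ≃ₐ[ℚ] L), (∀ x, σ (jO x) = jO (g x)) ∧ ∃ x, g (κL x) ≠ κL x := by
  have : IsAlgClosure k Ω := ⟨inferInstance, inferInstance⟩
  have : Normal k Ω := IsAlgClosure.normal k Ω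
  have : IsGalois k Ω := ⟨⟩
  obtain ⟨σ, x, hx⟩ : ∃ (σ : Ω ≃ₐ[k] Ω) (x : K), σ (jO (κL x)) ≠ jO (κL x) := by
    by_contra hcon
    push Not at hcon
    have h1 : ∀ x : K, ∃ a : k, algebraMap k Ω a = jO (κL x) := by
      intro x
      have h2 : jO (κL x) ∈ (⊥ : IntermediateField k Ω) :=
        (InfiniteGalois.mem_bot_iff_fixed _).2 fun f => hcon f x
      obtain ⟨a, ha⟩ := IntermediateField.mem_bot.1 h2
      exact ⟨a, ha⟩
    choose f hf using h1
    have hinj := (algebraMap k Ω).injective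
    refine hK.false ⟨⟨⟨f, ?_⟩, ?_⟩, ?_, ?_⟩
    · exact hinj (by rw [hf, map_one, map_one, map_one])
    · intro x y
      exact hinj (by rw [hf, map_mul, map_mul, map_mul, hf, hf])
    · exact hinj (by
        change algebraMap k Ω (f 0) = _
        rw [hf, map_zero, map_zero, map_zero])
    · intro x y
      exact hinj (by
        change algebraMap k Ω (f (x + y)) = algebraMap k Ω (f x + f y)
        rw [hf, map_add, map_add, map_add, hf, hf])
  let _ : Algebra L Ω := jO.toAlgebra
  have : IsScalarTower ℚ L Ω := IsScalarTower.of_algebraMap_eq' (Subsingleton.elim _ _)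
  let σQ : Ω ≃ₐ[ℚ] Ω := AlgEquiv.ofRingEquiv (f := (σ : Ω ≃+* Ω)) fun q => by simp
  refine ⟨σ, σQ.restrictNormal L, fun y => ?_, x, fun h => hx ?_⟩
  · exact (σQ.restrictNormal_commutes L y).symm
  · have h2 := (σQ.restrictNormal_commutes L (κL x)).symm
    rw [h] at h2
    exact h2

end

end Pool.Agent.U124.HL
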