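import Pool.Agent.N202.QR.Defs

/-!
# The standard conjecture of Hodge type in `l`-adic cohomology, at one prime number: definitions
-/

set_option autoImplicit false

namespace Pool.Agent.U124.HL

open NumberField Module
open Pool.Agent.W495.TA Pool.Agent.TH117.PO Pool.Agent.TH117.BL Pool.Agent.N202.QR

variable {p : ℕ} [Fact p.Prime] {ν : PadicAlgCl p ≃+* ℂ}

/-- The classes in the system `C` are rational over the subfield `k` of `Ω` (think of the field of
`l`-adic numbers, `l ≠ p`, in an algebraic closure `Ω`): they belong to the cohomology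
`H ^ * (Y, k)`, that is, their values on `H_1(X, ℚ)`, where `X` is the lifting, are in `k`. -/
def AreRationalOver (k : Type) [Field k] (Ω : Type) [Field Ω] [CharZero Ω] [Algebra k Ω]
    (C : (Y : RedAV p ν) → (κ : Type) → ((TM Ω Y) [⋀^κ]→ₗ[Ω] Ω) → Prop) : Prop :=
  ∀ {Y : RedAV p ν} {κ : Type} (z : (TM Ω Y) [⋀^κ]→ₗ[Ω] Ω), C Y κ z →
    ∀ v : κ → Y.X.H1, res z v ∈ Set.range (algebraMap k Ω)

/-- The standard conjecture of Hodge type for `Y` (modulo homological equivalence), for all
polarizations which are compatible with the complex multiplications of the lifting: for all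
primitive classes `z ≠ 0` of codimension `r` in the system `C` the number
`(-1) ^ r * deg (z ∪ z ∪ E ^ (dim Y - 2 r))` is positive. -/
def IsPositiveDefinite (Ω : Type) [Field Ω] [CharZero Ω]
    (C : (Y : RedAV p ν) → (κ : Type) → ((TM Ω Y) [⋀^κ]→ₗ[Ω] Ω) → Prop) (Y : RedAV p ν) : Prop :=
  ∀ α : Y.X.H1, IsPolar Y.X α → ∀ r m : ℕ, 2 * (2 * r + m) = finrank ℚ Y.X.H1 →
    ∀ z : (TM Ω Y) [⋀^Fin r × Fin 2]→ₗ[Ω] Ω, C Y (Fin r × Fin 2) z → z ≠ 0 →
      IsPrim α m z → IsPosClass α m z

/-- A system of families of classes, one class for each prime number `l`, with the known properties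
of the families of the classes of algebraic cycles: it is compatible; and for all `l` different from
`p` the classes are rational over the field of `l`-adic numbers, the Rosati involution is positive
(Weil), and the classes are Tate classes. -/
structure IsSystemOfCycles (Ω : Nat.Primes → Type) [∀ l, Field (Ω l)] [∀ l, CharZero (Ω l)]
    [∀ l : Nat.Primes, Algebra ℚ_[(l : ℕ)] (Ω l)]
    (C : (Y : RedAV p ν) → (κ : Type) → FCl Ω Y κ → Prop) : Prop extends IsCompatible Ω C where
  rational : ∀ l : Nat.Primes, (l : ℕ) ≠ p →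
    AreRationalOver ℚ_[(l : ℕ)] (Ω l) (atPrime C l)
  rosati : ∀ l : Nat.Primes, (l : ℕ) ≠ p → IsRosatiPositive (Ω l) (atPrime C l)
  tate : ∀ l : Nat.Primes, (l : ℕ) ≠ p → AreTate (Ω l) (atPrime C l)

/-- For all prime numbers `l ≠ p` which do not split in the imaginary quadratic field `K` (there is
no embedding of `K` in the field of `l`-adic numbers), and for all abelian varieties `Y` which are
isogenous over an algebraic closure to a product of powers of the factors of `Z` and of a
supersingular variety: the standard conjecture of Hodge type holds for `Y` in `l`-adic cohomology,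
modulo homological equivalence. -/
def HoldsForNonsplit {Ω : Nat.Primes → Type} [∀ l, Field (Ω l)] [∀ l, CharZero (Ω l)]
    (C : (Y : RedAV p ν) → (κ : Type) → FCl Ω Y κ → Prop) (K : Type) [Field K]
    (Z : RedAV p ν) : Prop :=
  ∀ l : Nat.Primes, (l : ℕ) ≠ p → IsEmpty (K →+* ℚ_[(l : ℕ)]) →
    ∀ Y : RedAV p ν, IsPowersTimesSupersingular Z Y →
      IsPositiveDefinite (Ω l) (atPrime C l) Y

end Pool.Agent.U124.HL
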