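import Pool.Agent.U124.HL.Conj

/-!
# Words on products: division, and the words which occur in the classes
-/

set_option autoImplicit false
set_option linter.unusedSectionVars false
set_option linter.unusedVariables false

namespace Pool.Agent.U124.HL

open NumberField Pool.Agent.H204R3.CM Pool.Agent.W547.KB Pool.Agent.W547.LD Pool.Agent.W547.HR
  Pool.Agent.W495.TA Module Pool.Agent.TH117.PO Pool.Agent.W976.TA Pool.Agent.W417.TA
  Pool.Agent.TH117.BL Pool.Agent.W495.TC Pool.Agent.W495.TB Pool.Agent.TH117.F5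
  Pool.Agent.N202.QR
open scoped TensorProduct

noncomputable section

variable {p : ℕ} [Fact p.Prime] {ν : PadicAlgCl p ≃+* ℂ}

section div

variable {L : Type} [Field L] [NumberField L] [IsCMField L] [IsGalois ℚ L] {j : L →+* ℂ}
  {Ω : Type} [Field Ω] [CharZero Ω] {jO : L →+* Ω}
  {C : (Y : RedAV p ν) → (κ : Type) → ((TM Ω Y) [⋀^κ]→ₗ[Ω] Ω) → Prop}

/-- A positive word on the first factor and a positive word on the product give a positive word on
the second factor. -/
theorem IsPos.div (hC : IsCycleSystem Ω C) {Y Y' : RedAV p ν} (hY' : Big Y'.X j) {κ κ' : Type}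
    [Fintype κ] [DecidableEq κ] [Fintype κ'] [DecidableEq κ'] {t : κ → Wt Y.X L}
    (ht : Function.Injective t) {J : κ' → Wt Y'.X L} (hJ : Function.Injective J)
    (h : IsPos jO C j Y' J)
    (hK : IsPos jO C j (prodR Y' Y) (Sum.elim (fun k => inlW (J k)) fun k => inrW (t k))) :
    IsPos jO C j Y t := by
  classical
  have : Finite (Wt Y'.X L) := Pool.Agent.W67.TA.finite_wt j hY'
  let _ : Fintype (Wt Y'.X L) := Fintype.ofFinite _
  let P := prodR Y (prodR Y' Y')
  let R := {w : Wt Y'.X L // w ∉ Set.range J}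
  let K1 : κ' ⊕ κ → Wt P.X L := Sum.elim (fun k => inrW (inlW (J k))) fun k => inlW (t k)
  have hKi : Function.Injective (Sum.elim (fun k => inlW (J k)) fun k => inrW (t k) :
      κ' ⊕ κ → Wt (prodR Y' Y).X L) := by
    refine Function.Injective.sumElim ?_ ?_ ?_
    · intro k k' hk
      refine hJ ?_
      have h5 := Sigma.mk.inj_iff.1 hk
      exact Sigma.ext (Sum.inl.inj h5.1) h5.2
    · intro k k' hk
      refine ht ?_
      have h5 := Sigma.mk.inj_iff.1 hk
      exact Sigma.ext (Sum.inr.inj h5.1) h5.2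
    · intro k k' hk
      exact Sum.inl_ne_inr (Sigma.mk.inj_iff.1 hk).1
  have h1 : IsPos jO C j P K1 := by
    refine IsPos.types hC (I := K1) hKi ?_ hK
    rintro (k | k)
    · rfl
    · rfl
  let K2 : κ' → Wt P.X L := fun k => inrW (inrW (bar (J k)))
  have h2 : IsPos jO C j P K2 :=
    IsPos.types hC (J := fun k => bar (J k)) (fun k k' hk => hJ (bar_injective hk))
      (fun k => rfl) (h.conj hC hY' hJ)
  let K3 : R × Fin 2 → Wt P.X L := fun x => inrW (restK J x)
  have h3 : IsPos jO C j P K3 :=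
    IsPos.pairs hC K3 fun k => IsPos.hodge hC rfl
  have h4 := IsPos.cup hC h1 (IsPos.cup hC h2 h3)
  let f : (κ' ⊕ κ) ⊕ (κ' ⊕ (R × Fin 2)) ≃ κ ⊕ ((κ' ⊕ κ') ⊕ (R × Fin 2)) :=
    { toFun := fun x => match x with
        | Sum.inl (Sum.inl k) => Sum.inr (Sum.inl (Sum.inl k))
        | Sum.inl (Sum.inr k) => Sum.inl k
        | Sum.inr (Sum.inl k) => Sum.inr (Sum.inl (Sum.inr k))
        | Sum.inr (Sum.inr y) => Sum.inr (Sum.inr y)
      invFun := fun x => match x with
        | Sum.inl k => Sum.inl (Sum.inr k)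
        | Sum.inr (Sum.inl (Sum.inl k)) => Sum.inl (Sum.inl k)
        | Sum.inr (Sum.inl (Sum.inr k)) => Sum.inr (Sum.inl k)
        | Sum.inr (Sum.inr y) => Sum.inr (Sum.inr y)
      left_inv := by
        rintro ((k | k) | k | y) <;> rfl
      right_inv := by
        rintro (k | (k | k) | y) <;> rfl }
  have h5 : IsPos jO C j P (Sum.elim (fun k => inlW (t k)) fun x =>
      inrW (fullK J x)) := by
    refine IsPos.reindex hC f ?_ h4
    rintro ((k | k) | k | y) <;> rfl
  exact IsPos.push hC (big_prodR hY' hY') (full_bijective hJ) h5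

/-- The second coefficient of a line on a positive word is not zero. -/
theorem IsPos.right_ne (hC : IsCycleSystem Ω C) {Y : RedAV p ν} (hB : Big Y.X j) {κ : Type}
    [Fintype κ] [DecidableEq κ] {I : κ → Wt Y.X L} (hI : Function.Injective I)
    (h : IsPos jO C j Y I) {d d' : Ω} (hd : Ln jO C Y I d d') (hd0 : d ≠ 0) : d' ≠ 0 := by
  obtain ⟨μ, h1, h2⟩ := h.line hC hB hI hd hd0
  intro h3
  rw [h3, mul_zero] at h1
  have h4 : μ = 0 := jO.injective (by rw [← h1, map_zero])
  have h5 := h2.1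
  rw [h4, map_zero, zero_mul] at h5
  exact h5 rfl

end div

section word

variable {L : Type} [Field L] [NumberField L] [IsCMField L] [IsGalois ℚ L] {j : L →+* ℂ}
  {Ω : Nat.Primes → Type} [∀ l, Field (Ω l)] [∀ l, CharZero (Ω l)]
  [∀ l : Nat.Primes, Algebra ℚ_[(l : ℕ)] (Ω l)] [∀ l, IsAlgClosed (Ω l)]
  {C : (Y : RedAV p ν) → (κ : Type) → FCl Ω Y κ → Prop}

/-- The words which occur in the classes are positive, if `l0` does not split in `K`. -/
theorem pos_word (hC : IsCompatible Ω C) (l0 : Nat.Primes)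
    [Algebra.IsAlgebraic ℚ_[(l0 : ℕ)] (Ω l0)]
    (hQ : AreRationalOver ℚ_[(l0 : ℕ)] (Ω l0) (atPrime C l0)) {K : Type} [Field K] [NumberField K]
    [IsCMField K] (hK : finrank ℚ K = 2) (hns : IsEmpty (K →+* ℚ_[(l0 : ℕ)])) {κ0 : K →+* ℂ}
    {κL : K →+* L} (hκ : j.comp κL = κ0)
    {Z : RedAV p ν} (hZ : Big Z.X j) (hkp : BigA (kp p) j) (hrel : HasQuadRelE κ0 Z)
    {Y : RedAV p ν} (hY : Big Y.X j) (hYZ : IsPowersTimesSupersingular Z Y)
    (jO : ∀ l, L →+* Ω l) {κ : Type} [Fintype κ] [DecidableEq κ] {s : κ → Wt Y.X L}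
    (hs : Function.Injective s) (hbal : ∀ g, ∑ k, tf p ν j (St j (s k)) g = 0)
    (heven : Even (Fintype.card κ)) {c c' : Ω l0} (h : Ln (jO l0) (atPrime C l0) Y s c c')
    (hc0 : c ≠ 0) : IsPos (jO l0) (atPrime C l0) j Y s := by
  classical
  have hfin := Pool.Agent.W67.TA.finite_wt j hZ
  let _ : Fintype (Wt Z.X L) := Fintype.ofFinite _
  have hC0 := hC.cycle l0
  obtain ⟨δ, d, hδ, hfix⟩ := exists_root j hK κL
  choose o ho using fun w => weight_cases hY hZ hYZ w
  -- the exponents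
  let w : κ → Option (Wt Z.X L) := fun k => o (s k)
  have hsum : ∀ g, ∑ k, ext0 (tw p ν j Z.X) (w k) g = 0 := by
    intro g
    rw [← hbal g]
    exact Finset.sum_congr rfl fun k _ => by rw [ho (s k)]
  have hbij := toEmb_bijective (j := j) hZ
  let E : Wt Z.X L ≃ Emb Z := Equiv.ofBijective _ hbij
  let e : Emb Z → ℕ := fun u => Nat.card {k // w k = some (E.symm u)}
  have he : ∀ v : Wt Z.X L, (e (toEmb j Z v) : ℤ) = Pool.Agent.TH117.BL.cnt w v := by
    intro v
    have h1 : E.symm (toEmb j Z v) = v := E.symm_apply_apply v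
    change ((Nat.card {k // w k = some (E.symm (toEmb j Z v))} : ℕ) : ℤ) = _
    rw [h1]
    rfl
  have h1 : IsRel Z e := by
    rw [isRel_iff hZ]
    intro σ
    rw [← hsum σ, sum_eq_cnt]
    exact Finset.sum_congr rfl fun v _ => by rw [he]
  obtain ⟨n, hn, hnrel, hG⟩ := rel_decomp (jO l0) hZ hkp hκ _ (hrel e h1)
  obtain ⟨h', Y', hY', J, hJ, hJbal, hJN, hJt⟩ := exists_J hδ hZ n
    (fun σ hσ => hn σ (hfix σ hσ)) hnrel
  have h3 : (fun l : Wt Z.X L => ((e (toEmb j Z l) : ℕ) : ℤ)) = Pool.Agent.TH117.BL.cnt w :=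
    funext he
  have hG' : GenD (AlgM p ν j (jO l0)) (Set.range (ext0 (tw p ν j Z.X)))
      (DD (tw p ν j Z.X) (Pool.Agent.TH117.BL.cnt w) -
        DD (tw p ν j Z.X) (Pool.Agent.TH117.BL.cnt (fl' n h'))) := by
    rw [cnt_fl', ← h3]
    exact hG
  have hA := alg_K (jO l0) hkp hY hY' (fun k => ho (s k)) heven hJt (even_of_bal hJbal) hG'
  have hs' : Function.Injective fun k => bar (s k) := fun k k' hk => hs (bar_injective hk)
  have hKi : Function.Injective (Sum.elim (fun k => inlW (J k)) fun k => inrW (bar (s k)) :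
      _ ⊕ κ → Wt (prodR Y' Y).X L) := by
    refine Function.Injective.sumElim ?_ ?_ ?_
    · intro k k' hk
      refine hJ ?_
      have h5 := Sigma.mk.inj_iff.1 hk
      exact Sigma.ext (Sum.inl.inj h5.1) h5.2
    · intro k k' hk
      refine hs' ?_
      have h5 := Sigma.mk.inj_iff.1 hk
      exact Sigma.ext (Sum.inr.inj h5.1) h5.2
    · intro k k' hk
      exact Sum.inl_ne_inr (Sigma.mk.inj_iff.1 hk).1
  have hKp := pos_of_alg hC0 (jO l0) j (big_prodR hY' hY) hKi hA
  -- the line on `J`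
  obtain ⟨b, b', μK, hb, hbb, hμ⟩ := hKp
  have hb0 : b * b' ≠ 0 := by
    rw [hbb]
    refine (map_ne_zero (jO l0)).2 fun h => ?_
    have h4 := hμ.1
    rw [h, map_zero, zero_mul] at h4
    exact h4 rfl
  obtain ⟨δ', hδ', h4⟩ := line_div hC0 hY hs hJ h hb
  have hne : b * c * jO l0 δ' ≠ 0 := mul_ne_zero (mul_ne_zero (left_ne_zero_of_mul hb0) hc0)
    ((map_ne_zero (jO l0)).2 hδ')
  -- a class whose coefficient at `J` is not zero
  obtain ⟨e', h1', h0'⟩ := Pool.Agent.W67.TA.basis p ν (Ω l0) L j (jO l0) Y' hY'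
  obtain ⟨z, hz, hz1⟩ := exists_class e' h1' h0' hJ h4 hne
  -- the coefficient at `bar J`
  obtain ⟨σ, g, hσ, x, hx⟩ := exists_aut (Ω := Ω l0) hns κL (jO l0)
  have hg : g δ ≠ δ := fun h => hx (hfix g h x)
  have hg' : (cc L * g) δ = δ := by
    rcases hδ.conj_or g with h6 | h6
    · exact absurd h6 hg
    · change cc L (g δ) = δ
      rw [h6, map_neg, hδ.cj j, neg_neg]
  obtain ⟨π, hπ⟩ := hJN (cc L * g) hg'
  have hz2 : (z fun k => e' (bar (J k))) ≠ 0 := by
    have h6 := coef_act (jO l0) σ g hσ e' h1' h0' (hQ z hz) J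
    have h7 : (fun k => e' (sw g (J k))) = (fun k => e' (bar (J k))) ∘ π := by
      funext k
      have h8 : sw g (J k) = bar (J (π k)) := by
        rw [← hπ k, sw_cc, bar_bar]
      rw [h8]
      rfl
    intro h9
    rw [h7] at h6
    have h10 := z.map_perm (fun k => e' (bar (J k))) π
    rw [h9, smul_zero] at h10
    rw [h10] at h6
    exact hz1 ((map_eq_zero_iff σ σ.injective).1 h6.symm)
  have hPJ : IsPos (jO l0) (atPrime C l0) j Y' J :=
    quad_pos hC hδ jO hY' hJ hJbal hJN l0 (Ln_coef hC0 j hY' e' h1' h0' hz hJ)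
      (mul_ne_zero hz1 hz2)
  have hPb : IsPos (jO l0) (atPrime C l0) j Y fun k => bar (s k) :=
    IsPos.div hC0 hY' hs' hJ hPJ ⟨b, b', μK, hb, hbb, hμ⟩
  have h11 := hPb.conj hC0 hY hs'
  have h12 : (fun k => bar (bar (s k))) = s := by
    funext k
    exact bar_bar _
  rw [h12] at h11
  exact h11

end word

end

end Pool.Agent.U124.HL
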